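import Pool.Agent.Helper37_BSig.Stmts

/-!
# Module BeatStmt: every small condition can be extended so as to beat a given matrix
-/

namespace Pool.Agent.BSig

open Filter Cardinal

theorem conf_symm29 {X : Type} {F s : Set (X × Bool)} (h : Conf F s) : Conf s F := by
  obtain ⟨x, b, h1, h2⟩ := h
  exact ⟨x, !b, h2, by simpa using h1⟩

theorem consis_union29 {X : Type} {c F : Set (X × Bool)} (hc : Consis c) (hF : Consis F)
    (h : ¬ Conf F c) : Consis (c ∪ F) := by
  rintro ⟨x, b, h1, h2⟩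
  rcases h1 with h1 | h1
  · rcases h2 with h2 | h2
    · exact hc ⟨x, b, h1, h2⟩
    · exact h (conf_symm29 ⟨x, b, h1, h2⟩)
  · rcases h2 with h2 | h2
    · exact h ⟨x, b, h1, h2⟩
    · exact hF ⟨x, b, h1, h2⟩

theorem diff_union29 {X : Type} {c F : Set (X × Bool)} (hF : F.Countable) :
    ((c ∪ F) \ c).Countable := by
  refine hF.mono ?_
  rintro p ⟨h1, h2⟩
  rcases h1 with h1 | h1
  · exact absurd h1 h2
  · exact h1

theorem not_conf_of_subset29 {X : Type} {F c c'' : Set (X × Bool)} (hc : Consis c'')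
    (h1 : F ⊆ c'') (h2 : c ⊆ c'') : ¬ Conf F c := by
  rintro ⟨x, b, h3, h4⟩
  exact hc ⟨x, b, h1 h3, h2 h4⟩

theorem beatStmt_proof (h1 : UnbeatW) (h2 : LemmaLim) (h3 : KilStmt) : BeatStmt := by
  intro φ hφ T hT c hc hcard
  by_contra hno
  push Not at hno
  apply hT
  refine h1 φ hφ T c hc hcard ?_ ?_ ?_
  · intro l t F hF hconf
    obtain ⟨c'', hs, hcs, hTe⟩ := hno (c ∪ (F : Set (MM × Bool))) Set.subset_union_left
      (consis_union29 hc hF.2.1 hconf) (diff_union29 F.countable_toSet)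
    rw [hTe]
    exact ⟨l, F, hF, Set.subset_union_right.trans hs⟩
  · intro t ht
    obtain ⟨c'', hs, hcs, hTe⟩ := hno c le_rfl hc (by simp)
    rw [hTe] at ht
    obtain ⟨l, F, hF, hFs⟩ := ht
    exact ⟨l, F, hF, not_conf_of_subset29 hcs hFs hs⟩
  · intro t ht
    by_contra hall
    push Not at hall
    choose s hs1 hs2 hs3 using hall
    obtain ⟨S, hS1, hS2, hS3, hS4⟩ := h2 MM (fun l => Fam φ l t) (fun l => (h3 φ hφ).1 l t) c s
      (fun l => ⟨hs1 l, hs2 l, hs3 l⟩)
    obtain ⟨c'', hs, hcs, hTe⟩ := hno (c ∪ S) Set.subset_union_left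
      (consis_union29 hc hS2 hS3) (diff_union29 hS1)
    rw [hTe] at ht
    obtain ⟨l, F, hF, hFs⟩ := ht
    exact not_conf_of_subset29 hcs hFs (Set.subset_union_right.trans hs) (hS4 l F hF)

end Pool.Agent.BSig
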